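import Mathlib

/-!
Abstract part of the counterexample.  From a rigid abelian group `A` with infinitely many
independent functionals to `ZMod 2` we build a non-hopfian group `ℕ →₀ A` with a hopfian
subgroup of index two.
-/

set_option autoImplicit false

namespace Pool.Agent.MP_5439be_al

/-- The data needed from the rigid group. -/
structure RigidData (A : Type) [AddCommGroup A] where
  b : ℕ → A
  lam : ℕ → (A →+ ZMod 2)
  lam_self : ∀ i, lam i (b i) = 1
  lam_ne : ∀ i j, i ≠ j → lam i (b j) = 0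
  rigid : ∀ f : A →+ A, ∃ m : ℤ, ∀ x, f x = m • x
  two_inj : ∀ x : A, (2 : ℤ) • x = 0 → x = 0
  sep : ∀ x : A, (∀ k : ℕ, ∃ y : A, x = (2 ^ k : ℤ) • y) → x = 0

variable {A : Type} [AddCommGroup A] (D : RigidData A)

/-- The functional on the direct sum whose kernel is the hopfian subgroup. -/
noncomputable def RigidData.Lam : (ℕ →₀ A) →+ ZMod 2 := Finsupp.liftAddHom D.lam

lemma RigidData.Lam_single (j : ℕ) (x : A) : D.Lam (Finsupp.single j x) = D.lam j x := by
  simp [RigidData.Lam]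

lemma RigidData.Lam_of_coords (w : ℕ →₀ A) (k : ℕ) (r : ℕ → ℤ) (hw : ∀ i, w i = r i • D.b k) :
    D.Lam w = (r k : ZMod 2) := by
  have h1 : D.Lam w = w.sum (fun i a => D.lam i a) := by
    simp [RigidData.Lam, Finsupp.liftAddHom_apply]
  rw [h1, Finsupp.sum_eq_single k]
  · rw [hw k, map_zsmul, D.lam_self]; simp
  · intro i _ hik
    rw [hw i, map_zsmul, D.lam_ne i k hik]; simp
  · intro _; simp

include D in
lemma RigidData.two_inj_sum (g : ℕ →₀ A) (h : (2 : ℤ) • g = 0) : g = 0 := by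
  ext i
  apply D.two_inj
  have := congrArg (fun w : ℕ →₀ A => w i) h
  simpa using this

lemma exists_half (w : ℕ →₀ A) (h : ∀ i, ∃ a : A, w i = (2 : ℤ) • a) :
    ∃ y : ℕ →₀ A, w = (2 : ℤ) • y := by
  classical
  choose a ha using h
  refine ⟨Finsupp.onFinset w.support (fun i => if w i = 0 then 0 else a i) ?_, ?_⟩
  · intro i hi
    by_contra hc
    apply hi
    have : w i = 0 := by simpa using hc
    simp [this]
  · ext i
    by_cases hi : w i = 0
    · simp [hi]
    · simp only [Finsupp.coe_smul, Pi.smul_apply, Finsupp.onFinset_apply, hi, if_false]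
      exact ha i

include D in
lemma RigidData.entries (θ : (ℕ →₀ A) →+ (ℕ →₀ A)) :
    ∃ m : ℕ → ℕ → ℤ, ∀ i j x, θ (Finsupp.single j x) i = m i j • x := by
  have : ∀ i j, ∃ m : ℤ, ∀ x, θ (Finsupp.single j x) i = m • x := by
    intro i j
    obtain ⟨m, hm⟩ := D.rigid (((Finsupp.applyAddHom i).comp θ).comp (Finsupp.singleAddHom j))
    exact ⟨m, fun x => by simpa using hm x⟩
  choose m hm using this
  exact ⟨m, hm⟩

lemma zmod2_two_smul (z : ZMod 2) : (2 : ℤ) • z = 0 := by
  revert z; decide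

lemma even_of_cast_zero (m : ℤ) (h : (m : ZMod 2) = 0) : ∃ n : ℤ, m = 2 * n := by
  have := (ZMod.intCast_zmod_eq_zero_iff_dvd m 2).1 h
  exact this

/-- Every endomorphism of the kernel extends to the direct sum. -/
lemma RigidData.extend (ψ : D.Lam.ker →+ D.Lam.ker) :
    ∃ θ : (ℕ →₀ A) →+ (ℕ →₀ A), ∀ h : D.Lam.ker, θ h = ψ h := by
  have hmem : ∀ g : ℕ →₀ A, (2 : ℤ) • g ∈ D.Lam.ker := by
    intro g
    rw [AddMonoidHom.mem_ker, map_zsmul]
    exact zmod2_two_smul _
  let dbl : (ℕ →₀ A) →+ D.Lam.ker :=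
    AddMonoidHom.codRestrict (zsmulAddGroupHom (2 : ℤ)) D.Lam.ker hmem
  let ψ' : (ℕ →₀ A) →+ (ℕ →₀ A) := (D.Lam.ker.subtype.comp ψ).comp dbl
  have hψ' : ∀ h : D.Lam.ker, ψ' h = (2 : ℤ) • (ψ h : ℕ →₀ A) := by
    intro h
    have : dbl h = (2 : ℤ) • h := Subtype.ext rfl
    simp only [ψ', AddMonoidHom.comp_apply, this, map_zsmul, AddSubgroup.coe_subtype]
  obtain ⟨m, hm⟩ := D.entries ψ'
  have heven : ∀ i j, ∃ n : ℤ, m i j = 2 * n := by
    intro i j
    apply even_of_cast_zero
    have hin : Finsupp.single j (D.b (j + 1)) ∈ D.Lam.ker := by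
      rw [AddMonoidHom.mem_ker, D.Lam_single, D.lam_ne j (j + 1) (by omega)]
    have h1 := hψ' ⟨_, hin⟩
    have h2 := congrArg (fun w : ℕ →₀ A => D.lam (j + 1) (w i)) h1
    simp only [hm, map_zsmul, D.lam_self, Finsupp.coe_smul, Pi.smul_apply, zmod2_two_smul] at h2
    simpa using h2
  have hall : ∀ g : ℕ →₀ A, ∃ y : ℕ →₀ A, ψ' g = (2 : ℤ) • y := by
    intro g
    induction g using Finsupp.induction_linear with
    | zero => exact ⟨0, by simp⟩
    | add f g hf hg =>
      obtain ⟨y, hy⟩ := hf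
      obtain ⟨z, hz⟩ := hg
      exact ⟨y + z, by rw [map_add, hy, hz, smul_add]⟩
    | single j x =>
      apply exists_half
      intro i
      obtain ⟨n, hn⟩ := heven i j
      exact ⟨n • x, by rw [hm, hn, mul_smul]⟩
  choose θ hθ using hall
  have hcancel : ∀ u v : ℕ →₀ A, (2 : ℤ) • u = (2 : ℤ) • v → u = v := by
    intro u v huv
    have : (2 : ℤ) • (u - v) = 0 := by rw [smul_sub, huv, sub_self]
    exact sub_eq_zero.1 (D.two_inj_sum _ this)
  refine ⟨AddMonoidHom.mk' θ ?_, ?_⟩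
  · intro a b
    apply hcancel
    rw [smul_add, ← hθ, ← hθ, ← hθ, map_add]
  · intro h
    apply hcancel
    change (2 : ℤ) • θ h = _
    rw [← hθ, hψ']

/-- An endomorphism preserving the kernel is a scalar modulo two. -/
lemma RigidData.scalar_mod_two (θ : (ℕ →₀ A) →+ (ℕ →₀ A))
    (hθ : ∀ g, D.Lam g = 0 → D.Lam (θ g) = 0) :
    ∃ c : ℤ, ∀ g, ∃ y : ℕ →₀ A, θ g = c • g + (2 : ℤ) • y := by
  obtain ⟨n, hn⟩ := D.entries θ
  have hoff : ∀ k j, k ≠ j → (n k j : ZMod 2) = 0 := by
    intro k j hkj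
    have h0 : D.Lam (Finsupp.single j (D.b k)) = 0 := by
      rw [D.Lam_single, D.lam_ne j k (Ne.symm hkj)]
    have h1 := hθ _ h0
    rwa [D.Lam_of_coords _ k (fun i => n i j) (fun i => hn i j _)] at h1
  have hdiag : ∀ j, ((n j j - n 0 0 : ℤ) : ZMod 2) = 0 := by
    intro j
    have h0 : D.Lam (Finsupp.single j (D.b j) - Finsupp.single 0 (D.b 0)) = 0 := by
      rw [map_sub, D.Lam_single, D.Lam_single, D.lam_self, D.lam_self, sub_self]
    have h1 := hθ _ h0
    rw [map_sub, map_sub, D.Lam_of_coords _ j (fun i => n i j) (fun i => hn i j _),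
      D.Lam_of_coords _ 0 (fun i => n i 0) (fun i => hn i 0 _)] at h1
    simpa using h1
  refine ⟨n 0 0, fun g => ?_⟩
  induction g using Finsupp.induction_linear with
  | zero => exact ⟨0, by simp⟩
  | add f g hf hg =>
    obtain ⟨y, hy⟩ := hf
    obtain ⟨z, hz⟩ := hg
    refine ⟨y + z, ?_⟩
    rw [map_add, hy, hz, smul_add, smul_add]; abel
  | single j x =>
    have : ∃ y : ℕ →₀ A, θ (Finsupp.single j x) - n 0 0 • Finsupp.single j x = (2 : ℤ) • y := by
      apply exists_half
      intro i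
      by_cases hij : i = j
      · subst hij
        obtain ⟨r, hr⟩ := even_of_cast_zero _ (hdiag i)
        refine ⟨r • x, ?_⟩
        simp only [Finsupp.coe_sub, Pi.sub_apply, hn, Finsupp.coe_smul, Pi.smul_apply,
          Finsupp.single_eq_same]
        rw [← sub_smul, hr, mul_smul]
      · obtain ⟨r, hr⟩ := even_of_cast_zero _ (hoff i j hij)
        refine ⟨r • x, ?_⟩
        simp only [Finsupp.coe_sub, Pi.sub_apply, hn, Finsupp.coe_smul, Pi.smul_apply,
          Finsupp.single_eq_of_ne hij, smul_zero, sub_zero]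
        rw [hr, mul_smul]
    obtain ⟨y, hy⟩ := this
    exact ⟨y, by rw [← hy]; abel⟩

/-- The kernel is hopfian. -/
theorem RigidData.hopfian (ψ : D.Lam.ker →+ D.Lam.ker) (hs : Function.Surjective ψ) :
    Function.Injective ψ := by
  obtain ⟨θ, hθ⟩ := D.extend ψ
  have hpres : ∀ g, D.Lam g = 0 → D.Lam (θ g) = 0 := by
    intro g hg
    have := hθ ⟨g, hg⟩
    simp only at this
    rw [this]
    exact (ψ ⟨g, hg⟩).2
  obtain ⟨c, hc⟩ := D.scalar_mod_two θ hpres
  have hodd : ∃ r : ℤ, c = 2 * r + 1 := by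
    rcases Int.even_or_odd' c with ⟨r, hr | hr⟩
    · exfalso
      have hin : Finsupp.single 0 (D.b 1) ∈ D.Lam.ker := by
        rw [AddMonoidHom.mem_ker, D.Lam_single, D.lam_ne 0 1 (by omega)]
      obtain ⟨h, hh⟩ := hs ⟨_, hin⟩
      have h1 := hθ h
      rw [hh] at h1
      obtain ⟨y, hy⟩ := hc h
      rw [h1, hr, mul_smul, ← smul_add] at hy
      have h2 := congrArg (fun w : ℕ →₀ A => D.lam 1 (w 0)) hy
      simp only [Finsupp.single_eq_same, D.lam_self, Finsupp.coe_smul, Pi.smul_apply, map_zsmul,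
        zmod2_two_smul] at h2
      exact one_ne_zero h2
    · exact ⟨r, hr⟩
  obtain ⟨r, hr⟩ := hodd
  have hhalf : ∀ g, θ g = 0 → ∃ g', θ g' = 0 ∧ g = (2 : ℤ) • g' := by
    intro g hg
    obtain ⟨y, hy⟩ := hc g
    rw [hg, hr, add_smul, one_smul, mul_smul] at hy
    have hg' : g = (2 : ℤ) • (-(r • g) - y) := by
      rw [smul_sub, smul_neg]
      have h3 : g - (-((2 : ℤ) • r • g) - (2 : ℤ) • y) = (2 : ℤ) • r • g + g + (2 : ℤ) • y := by abel
      rw [← hy] at h3
      exact sub_eq_zero.1 h3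
    refine ⟨-(r • g) - y, ?_, hg'⟩
    apply D.two_inj_sum
    rw [← map_zsmul, ← hg', hg]
  have hpow : ∀ k : ℕ, ∀ g, θ g = 0 → ∃ g', θ g' = 0 ∧ g = (2 ^ k : ℤ) • g' := by
    intro k
    induction k with
    | zero => intro g hg; exact ⟨g, hg, by simp⟩
    | succ k ih =>
      intro g hg
      obtain ⟨g1, h1, e1⟩ := ih g hg
      obtain ⟨g2, h2, e2⟩ := hhalf g1 h1
      exact ⟨g2, h2, by rw [e1, e2, pow_succ, mul_smul]⟩
  rw [injective_iff_map_eq_zero]
  intro h hh
  have h0 : θ h = 0 := by rw [hθ, hh]; rfl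
  apply Subtype.ext
  ext i
  apply D.sep
  intro k
  obtain ⟨g', -, e⟩ := hpow k _ h0
  exact ⟨g' i, by rw [e]; simp⟩

/-- The shift of the direct sum. -/
noncomputable def shift (A : Type) [AddCommGroup A] : (ℕ →₀ A) →+ (ℕ →₀ A) :=
  Finsupp.comapDomain.addMonoidHom (M := A) Nat.succ_injective

lemma shift_apply (g : ℕ →₀ A) (i : ℕ) : shift A g i = g (i + 1) := rfl

lemma shift_surjective : Function.Surjective (shift A) := by
  intro g
  refine ⟨Finsupp.mapDomain Nat.succ g, ?_⟩
  ext i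
  rw [shift_apply]
  exact Finsupp.mapDomain_apply Nat.succ_injective g i

include D in
lemma RigidData.shift_not_injective : ¬ Function.Injective (shift A) := by
  intro h
  have h1 : shift A (Finsupp.single 0 (D.b 0)) = 0 := by
    ext i
    rw [shift_apply]
    simp
  have h2 := (injective_iff_map_eq_zero _).1 h _ h1
  have h3 := congrArg (fun w : ℕ →₀ A => D.lam 0 (w 0)) h2
  simp [D.lam_self] at h3

include D in
theorem RigidData.counterexample :
    ¬ (∀ (G : Type) [Group G] (H : Subgroup G), H.FiniteIndex →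
      (∀ f : ↥H →* ↥H, Function.Surjective f → Function.Injective f) →
      ∀ g : G →* G, Function.Surjective g → Function.Injective g) := by
  intro hall
  let Λ : Multiplicative (ℕ →₀ A) →* Multiplicative (ZMod 2) := AddMonoidHom.toMultiplicative D.Lam
  have hfi : Λ.ker.FiniteIndex := Subgroup.finiteIndex_ker Λ
  have hhopf : ∀ f : ↥Λ.ker →* ↥Λ.ker, Function.Surjective f → Function.Injective f := by
    intro f hf
    let e : D.Lam.ker → Λ.ker := fun h => ⟨Multiplicative.ofAdd h.1, h.2⟩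
    let e' : Λ.ker → D.Lam.ker := fun h => ⟨Multiplicative.toAdd h.1, h.2⟩
    let ψ : D.Lam.ker →+ D.Lam.ker := AddMonoidHom.mk' (fun h => e' (f (e h))) (by
      intro a b
      have : e (a + b) = e a * e b := rfl
      rw [this, map_mul]
      rfl)
    have hψ : Function.Surjective ψ := by
      intro y
      obtain ⟨x, hx⟩ := hf (e y)
      refine ⟨e' x, ?_⟩
      change e' (f x) = y
      rw [hx]
      rfl
    have hinj := D.hopfian ψ hψ
    intro x y hxy
    have : ψ (e' x) = ψ (e' y) := by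
      change e' (f x) = e' (f y)
      rw [hxy]
    exact congrArg e (hinj this)
  have := hall (Multiplicative (ℕ →₀ A)) Λ.ker hfi hhopf (AddMonoidHom.toMultiplicative (shift A))
    (fun y => shift_surjective (A := A) y)
  exact D.shift_not_injective this

end Pool.Agent.MP_5439be_al
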