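import Mathlib
import Pool.Agent.MP_5439be_al.Abstract

/-!
A rigid subgroup of the 3-adic integers: the 3-pure hull of the span of `1, t, t^3, t^5, ...`
for a transcendental 3-adic integer `t`.
-/

set_option autoImplicit false

open Polynomial

namespace Pool.Agent.MP_5439be_al

instance fact_three : Fact (Nat.Prime 3) := ⟨by norm_num⟩

lemma exists_transcendental : ∃ t : ℤ_[3], Transcendental ℤ t := by
  by_contra hne
  push Not at hne
  have h1 : Set.Countable {x : ℤ_[3] | IsAlgebraic ℤ x} := Algebraic.countable ℤ ℤ_[3]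
  have h2 : {x : ℤ_[3] | IsAlgebraic ℤ x} = Set.univ := by
    ext x
    simpa [Transcendental] using hne x
  rw [h2, Set.countable_univ_iff] at h1
  have h3 : Cardinal.mk ℚ_[3] = Cardinal.mk ℤ_[3] := IsFractionRing.cardinalMk ℤ_[3] ℚ_[3]
  have h4 := continuum_le_cardinal_of_nontriviallyNormedField ℚ_[3]
  rw [h3] at h4
  have h5 : Cardinal.mk ℤ_[3] ≤ Cardinal.aleph0 := Cardinal.mk_le_aleph0
  exact absurd (h4.trans h5) (not_le.2 Cardinal.aleph0_lt_continuum)

/-- Polynomials with no terms of even positive degree. -/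
def Sparse (P : ℤ[X]) : Prop := ∀ s : ℕ, s ≠ 0 → P.coeff (2 * s) = 0

lemma Sparse.add {P Q : ℤ[X]} (hP : Sparse P) (hQ : Sparse Q) : Sparse (P + Q) := by
  intro s hs; rw [coeff_add, hP s hs, hQ s hs, add_zero]

lemma Sparse.neg {P : ℤ[X]} (hP : Sparse P) : Sparse (-P) := by
  intro s hs; rw [coeff_neg, hP s hs, neg_zero]

lemma Sparse.C_mul {P : ℤ[X]} (hP : Sparse P) (c : ℤ) : Sparse (C c * P) := by
  intro s hs; rw [coeff_C_mul, hP s hs, mul_zero]

lemma sparse_C (c : ℤ) : Sparse (C c) := by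
  intro s hs; rw [coeff_C, if_neg (by omega)]

lemma sparse_X_pow (i : ℕ) : Sparse (X ^ (2 * i + 1)) := by
  intro s _; rw [coeff_X_pow, if_neg (by omega)]

lemma aeval_C_int (t : ℤ_[3]) (c : ℤ) : aeval t (C c : ℤ[X]) = (c : ℤ_[3]) := by simp

variable (t : ℤ_[3])

/-- The rigid group. -/
def rigidGroup : AddSubgroup ℤ_[3] where
  carrier := {x | ∃ (k : ℕ) (P : ℤ[X]), Sparse P ∧ 3 ^ k * x = aeval t P}
  zero_mem' := ⟨0, C 0, sparse_C 0, by simp⟩
  add_mem' := by
    rintro x y ⟨k, P, hP, hx⟩ ⟨l, Q, hQ, hy⟩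
    refine ⟨k + l, C (3 ^ l) * P + C (3 ^ k) * Q, (hP.C_mul _).add (hQ.C_mul _), ?_⟩
    simp only [map_add, map_mul, aeval_C_int, ← hx, ← hy]
    push_cast
    ring
  neg_mem' := by
    rintro x ⟨k, P, hP, hx⟩
    exact ⟨k, -P, hP.neg, by rw [map_neg, ← hx]; ring⟩

variable {t}

lemma mem_rigidGroup {x : ℤ_[3]} :
    x ∈ rigidGroup t ↔ ∃ (k : ℕ) (P : ℤ[X]), Sparse P ∧ 3 ^ k * x = aeval t P := Iff.rfl

lemma one_mem_rigidGroup : (1 : ℤ_[3]) ∈ rigidGroup t := ⟨0, C 1, sparse_C 1, by simp⟩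

lemma pow_mem_rigidGroup (i : ℕ) : t ^ (2 * i + 1) ∈ rigidGroup t :=
  ⟨0, X ^ (2 * i + 1), sparse_X_pow i, by simp⟩

lemma rep_unique (ht : Transcendental ℤ t) {x : ℤ_[3]} {k l : ℕ} {P Q : ℤ[X]}
    (hP : 3 ^ k * x = aeval t P) (hQ : 3 ^ l * x = aeval t Q) :
    C (3 ^ l) * P = C (3 ^ k) * Q := by
  apply (transcendental_iff_injective.1 ht)
  simp only [map_mul, aeval_C_int, ← hP, ← hQ]
  push_cast
  ring

lemma three_cast : ((3 : ℤ) : ZMod 2) = 1 := by decide

lemma coeff_rep_unique (ht : Transcendental ℤ t) {x : ℤ_[3]} {k l : ℕ} {P Q : ℤ[X]}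
    (hP : 3 ^ k * x = aeval t P) (hQ : 3 ^ l * x = aeval t Q) (n : ℕ) :
    (P.coeff n : ZMod 2) = (Q.coeff n : ZMod 2) := by
  have h := congrArg (fun R : ℤ[X] => ((R.coeff n : ℤ) : ZMod 2)) (rep_unique ht hP hQ)
  simp only [coeff_C_mul, Int.cast_mul, Int.cast_pow, three_cast, one_pow, one_mul] at h
  exact h

/-- The parity of the coefficient of `t ^ n`. -/
noncomputable def parityFun (n : ℕ) (x : rigidGroup t) : ZMod 2 :=
  ((Classical.choose (Classical.choose_spec x.2)).coeff n : ZMod 2)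

lemma parityFun_eq (ht : Transcendental ℤ t) (n : ℕ) (x : rigidGroup t) {k : ℕ} {P : ℤ[X]}
    (hP : 3 ^ k * (x : ℤ_[3]) = aeval t P) : parityFun n x = (P.coeff n : ZMod 2) :=
  coeff_rep_unique ht (Classical.choose_spec (Classical.choose_spec x.2)).2 hP n

/-- The parity functional as a homomorphism. -/
noncomputable def parityHom (ht : Transcendental ℤ t) (n : ℕ) : rigidGroup t →+ ZMod 2 :=
  AddMonoidHom.mk' (parityFun n) (by
    intro x y
    obtain ⟨k, P, -, hx⟩ := x.2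
    obtain ⟨l, Q, -, hy⟩ := y.2
    have hxy : 3 ^ (k + l) * ((x + y : rigidGroup t) : ℤ_[3])
        = aeval t (C (3 ^ l) * P + C (3 ^ k) * Q : ℤ[X]) := by
      simp only [map_add, map_mul, aeval_C_int, ← hx, ← hy]
      push_cast
      ring
    rw [parityFun_eq ht n _ hxy, parityFun_eq ht n _ hx, parityFun_eq ht n _ hy]
    simp only [coeff_add, coeff_C_mul, Int.cast_add, Int.cast_mul, Int.cast_pow, three_cast,
      one_pow, one_mul])

lemma eq_zero_of_forall_dvd (z : ℤ_[3]) (h : ∀ k : ℕ, (3 : ℤ_[3]) ^ k ∣ z) : z = 0 := by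
  by_contra hz
  have hpos : 0 < ‖z‖ := norm_pos_iff.2 hz
  obtain ⟨k, hk⟩ := PadicInt.exists_pow_neg_lt 3 hpos
  have h1 : ‖z‖ ≤ ((3 : ℕ) : ℝ) ^ (-(k : ℤ)) := by
    rw [PadicInt.norm_le_pow_iff_mem_span_pow, Ideal.mem_span_singleton]
    exact_mod_cast h k
  exact absurd hk (not_lt.2 h1)

lemma hom_eq_mul (f : rigidGroup t →+ rigidGroup t) (x : rigidGroup t) :
    (f x : ℤ_[3]) = x * f ⟨1, one_mem_rigidGroup⟩ := by
  rw [← sub_eq_zero]
  apply eq_zero_of_forall_dvd
  intro k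
  have h := PadicInt.appr_spec k (x : ℤ_[3])
  rw [Ideal.mem_span_singleton] at h
  obtain ⟨y, hy⟩ := h
  have hy' : (x : ℤ_[3]) - (PadicInt.appr (x : ℤ_[3]) k : ℤ_[3]) = 3 ^ k * y := by exact_mod_cast hy
  set n := PadicInt.appr (x : ℤ_[3]) k with hn
  obtain ⟨j, P, hP, hx⟩ := x.2
  have hyA : y ∈ rigidGroup t := by
    refine ⟨j + k, P + C (-(3 ^ j * (n : ℤ))), hP.add (sparse_C _), ?_⟩
    simp only [map_add, aeval_C_int, ← hx]
    push_cast
    linear_combination (-(3 : ℤ_[3]) ^ j) * hy'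
  have hxe : x = n • (⟨1, one_mem_rigidGroup⟩ : rigidGroup t) + (3 ^ k : ℕ) • (⟨y, hyA⟩ : rigidGroup t) := by
    apply Subtype.ext
    simp only [AddSubgroup.coe_add, AddSubgroupClass.coe_nsmul, nsmul_eq_mul]
    push_cast
    linear_combination hy'
  have hfx : (f x : ℤ_[3]) = n * (f ⟨1, one_mem_rigidGroup⟩ : ℤ_[3]) + 3 ^ k * (f ⟨y, hyA⟩ : ℤ_[3]) := by
    conv_lhs => rw [hxe]
    simp only [map_add, map_nsmul, AddSubgroup.coe_add, AddSubgroupClass.coe_nsmul, nsmul_eq_mul]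
    push_cast
    ring
  refine ⟨(f ⟨y, hyA⟩ : ℤ_[3]) - y * f ⟨1, one_mem_rigidGroup⟩, ?_⟩
  rw [hfx]
  linear_combination (-(f ⟨1, one_mem_rigidGroup⟩ : ℤ_[3])) * hy'

lemma multiplier_int (ht : Transcendental ℤ t) (a : ℤ_[3])
    (ha : ∀ x ∈ rigidGroup t, x * a ∈ rigidGroup t) : ∃ m : ℤ, a = m := by
  obtain ⟨k, P, hP, hk⟩ := ha 1 one_mem_rigidGroup
  rw [one_mul] at hk
  have hdeg : P.natDegree = 0 := by
    by_contra hd
    have hP0 : P ≠ 0 := by
      rintro rfl
      exact hd natDegree_zero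
    have hlead : P.coeff P.natDegree ≠ 0 := by
      simpa using hP0
    rcases Nat.even_or_odd' P.natDegree with ⟨i, hi | hi⟩
    · exact hlead (by rw [hi]; exact hP i (by omega))
    · obtain ⟨j, Q, hQ, hj⟩ := ha _ (pow_mem_rigidGroup i)
      have h1 : 3 ^ k * (t ^ (2 * i + 1) * a) = aeval t (P * X ^ (2 * i + 1) : ℤ[X]) := by
        rw [map_mul, ← hk]; simp; ring
      have h2 := congrArg (fun R : ℤ[X] => R.coeff (2 * (2 * i + 1))) (rep_unique ht h1 hj)
      simp only [coeff_C_mul] at h2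
      rw [hQ _ (by omega), show 2 * (2 * i + 1) = P.natDegree + (2 * i + 1) by omega,
        coeff_mul_X_pow] at h2
      simp only [mul_zero, mul_eq_zero] at h2
      rcases h2 with h2 | h2
      · exact absurd h2 (by positivity)
      · exact hlead h2
  rw [eq_C_of_natDegree_eq_zero hdeg] at hk
  rw [aeval_C_int] at hk
  have hdvd : ((3 : ℕ) : ℤ_[3]) ^ k ∣ ((P.coeff 0 : ℤ) : ℤ_[3]) := ⟨a, by exact_mod_cast hk.symm⟩
  rw [PadicInt.pow_p_dvd_int_iff] at hdvd
  obtain ⟨m, hm⟩ := hdvd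
  refine ⟨m, ?_⟩
  rw [hm] at hk
  push_cast at hk
  exact mul_left_cancel₀ (pow_ne_zero k (by norm_num)) hk

lemma int_eq_zero_of_forall_two_pow_dvd (c : ℤ) (h : ∀ k : ℕ, (2 : ℤ) ^ k ∣ c) : c = 0 := by
  by_contra hc
  have h1 := Int.le_of_dvd (abs_pos.2 hc) ((dvd_abs _ _).2 (h c.natAbs))
  have h2 : c.natAbs < 2 ^ c.natAbs := Nat.lt_two_pow_self
  have h3 : (c.natAbs : ℤ) < 2 ^ c.natAbs := by exact_mod_cast h2
  rw [Int.natCast_natAbs] at h3
  exact absurd h1 (not_le.2 h3)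

/-- The rigid data of the group. -/
noncomputable def rigidData (ht : Transcendental ℤ t) : RigidData (rigidGroup t) where
  b i := ⟨t ^ (2 * i + 1), pow_mem_rigidGroup i⟩
  lam i := parityHom ht (2 * i + 1)
  lam_self i := by
    change parityFun _ _ = _
    rw [parityFun_eq ht _ _ (k := 0) (P := X ^ (2 * i + 1)) (by simp)]
    simp
  lam_ne i j hij := by
    change parityFun _ _ = _
    rw [parityFun_eq ht _ _ (k := 0) (P := X ^ (2 * j + 1)) (by simp), coeff_X_pow,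
      if_neg (by omega)]
    simp
  rigid f := by
    obtain ⟨m, hm⟩ := multiplier_int ht (f ⟨1, one_mem_rigidGroup⟩ : ℤ_[3]) (fun x hx => by
      have := hom_eq_mul f ⟨x, hx⟩
      simp only at this
      rw [← this]
      exact (f ⟨x, hx⟩).2)
    refine ⟨m, fun x => Subtype.ext ?_⟩
    rw [hom_eq_mul, hm]
    simp [mul_comm]
  two_inj x hx := by
    have h := congrArg (fun z : rigidGroup t => (z : ℤ_[3])) hx
    simp only [AddSubgroupClass.coe_zsmul, zsmul_eq_mul, ZeroMemClass.coe_zero, mul_eq_zero] at h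
    rcases h with h | h
    · exact absurd h (by norm_num)
    · exact Subtype.ext h
  sep x hx := by
    obtain ⟨j, P, -, hj⟩ := x.2
    have hP : P = 0 := by
      ext n
      rw [coeff_zero]
      apply int_eq_zero_of_forall_two_pow_dvd
      intro k
      obtain ⟨y, hy⟩ := hx k
      obtain ⟨l, Q, -, hl⟩ := y.2
      have h1 : 3 ^ l * (x : ℤ_[3]) = aeval t (C (2 ^ k) * Q : ℤ[X]) := by
        rw [hy]
        simp only [map_mul, aeval_C_int, ← hl,
          AddSubgroupClass.coe_zsmul, zsmul_eq_mul]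
        push_cast
        ring
      have h2 := congrArg (fun R : ℤ[X] => R.coeff n) (rep_unique ht hj h1)
      simp only [coeff_C_mul] at h2
      have hcop : IsCoprime ((2 : ℤ) ^ k) (3 ^ l) := by
        apply IsCoprime.pow
        exact ⟨-1, 1, by norm_num⟩
      apply hcop.dvd_of_dvd_mul_left
      exact ⟨3 ^ j * Q.coeff n, by rw [h2]; ring⟩
    rw [hP, map_zero, mul_eq_zero] at hj
    rcases hj with h | h
    · exact absurd h (pow_ne_zero j (by norm_num))
    · exact Subtype.ext h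

theorem counterexample :
    ¬ (∀ (G : Type) [Group G] (H : Subgroup G), H.FiniteIndex →
      (∀ f : ↥H →* ↥H, Function.Surjective f → Function.Injective f) →
      ∀ g : G →* G, Function.Surjective g → Function.Injective g) := by
  obtain ⟨t, ht⟩ := exists_transcendental
  exact (rigidData ht).counterexample

end Pool.Agent.MP_5439be_al
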